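import Pool.Agent.Y16.BR.St

/-!
# Unramified Brauer classes of order three on large families of cubic surface bundles

The surfaces `t b(t) (x₀³ + t x₁³) + x₂³ + x₃³ = 0` over `C(t)`. The proof uses the starting library
of helper346 and his team, which treats `b = (t-1) (1-2t)²`, `C = ℂ`.
-/

set_option autoImplicit false

namespace Pool.Agent.Results.MP_1932ef_ag.FamiliesOverQ

open Pool.Agent.Y16.BR

/-- There is a smooth cubic surface over `ℂ(t)` whose function field has an unramified Brauer class
over `ℂ` of order three. More precisely: let `p ≠ 3` be a prime and let `b` be a polynomial with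
integral coefficients which is congruent to `t - 1` modulo `p` and whose degree is divisible by
three. Then for every algebraically closed field `C` of characteristic zero the surface
`t b(t) (x₀³ + t x₁³) + x₂³ + x₃³ = 0` over `C(t)` has such a class over `C`. The same holds if `b`
has coefficients in a valuation ring of `C` with residue characteristic different from three and is
congruent to `t - 1` modulo its maximal ideal. -/
theorem result :
    (∃ F : MvPolynomial (Fin 4) (RatFunc ℂ), HasClassThree ℂ F) ∧
    (∀ b : Polynomial ℤ, GoodInt 3 b →
      ∀ (C : Type) [Field C] [IsAlgClosed C] [CharZero C],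
        HasClassThree C (cubic C (b.map (Int.castRingHom C)))) ∧
    (∀ (C : Type) [Field C] [IsAlgClosed C] [CharZero C] (V : ValuationSubring C)
      (b : Polynomial V), GoodVal 3 V b →
        HasClassThree C (cubic C (b.map (algebraMap V C)))) :=
  ⟨⟨_, three_int _ good_three ℂ⟩, fun b hb C _ _ _ => three_int b hb C,
    fun C _ _ _ V b hb => three_val C V b hb⟩

end Pool.Agent.Results.MP_1932ef_ag.FamiliesOverQ
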